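import Pool.Agent.Lib.MP_28303a_al.WR.Iface

/-! # INDA: the index of a lattice

`ind` may be computed with any `m`, and it is additive on products. -/

set_option autoImplicit false
set_option linter.unusedSectionVars false

namespace Pool.Agent.NegK.WR.H16

universe u

open Matrix

section

variable {A : Type u} [Ring A] {ι : Type} [Fintype ι] [DecidableEq ι]

theorem rmul_mul (α β : Matrix ι ι (LaurentPolynomial A)) :
    rmul (α * β) = (rmul β).comp (rmul α) := by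
  refine LinearMap.ext fun y => ?_
  show y ᵥ* (α * β) = (y ᵥ* α) ᵥ* β
  rw [Matrix.vecMul_vecMul]

theorem rmul_one : rmul (1 : Matrix ι ι (LaurentPolynomial A)) = LinearMap.id := by
  refine LinearMap.ext fun y => ?_
  show y ᵥ* 1 = y
  rw [Matrix.vecMul_one]

/-- Right multiplication by an invertible matrix. -/
noncomputable def requiv (α β : Matrix ι ι (LaurentPolynomial A)) (h1 : α * β = 1)
    (h2 : β * α = 1) : (ι → LaurentPolynomial A) ≃ₗ[A] (ι → LaurentPolynomial A) :=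
  LinearEquiv.ofLinearMap (rmul α) (rmul β) (by rw [← rmul_mul, h2, rmul_one])
    (by rw [← rmul_mul, h1, rmul_one])

theorem requiv_toLinearMap (α β : Matrix ι ι (LaurentPolynomial A)) (h1 : α * β = 1)
    (h2 : β * α = 1) : (requiv α β h1 h2).toLinearMap = rmul α := rfl

theorem ge_mono {a b : ℤ} (h : a ≤ b) : Ge A ι b ≤ Ge A ι a :=
  fun _ hy i c hc => hy i c (lt_of_lt_of_le hc h)

theorem coeff_mul_ne_zero {x y : LaurentPolynomial A} {g : ℤ} (h : (x * y).coeff g ≠ 0) :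
    ∃ a b, x.coeff a ≠ 0 ∧ y.coeff b ≠ 0 ∧ a + b = g := by
  classical
  rw [AddMonoidAlgebra.coeff_mul] at h
  by_contra hc
  push Not at hc
  refine h ?_
  refine Finset.sum_eq_zero fun a ha => Finset.sum_eq_zero fun b hb => ?_
  exact if_neg (hc a b (Finsupp.mem_support_iff.1 ha) (Finsupp.mem_support_iff.1 hb))

theorem ge_map_le {m : ℕ} {α : Matrix ι ι (LaurentPolynomial A)} (hα : DegGe m α) (c : ℤ) :
    (Ge A ι c).map (rmul α) ≤ Ge A ι (c - m) := by
  rintro _ ⟨y, hy, rfl⟩ j d hd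
  show ((y ᵥ* α) j).coeff d = 0
  rw [Matrix.vecMul, dotProduct, AddMonoidAlgebra.coeff_sum, Finsupp.finsetSum_apply]
  refine Finset.sum_eq_zero fun i _ => ?_
  by_contra hne
  obtain ⟨a, b, ha, hb, hab⟩ := coeff_mul_ne_zero hne
  have h1 : c ≤ a := by
    by_contra hlt
    exact ha (hy i a (not_le.1 hlt))
  have h2 : -(m : ℤ) ≤ b := by
    by_contra hlt
    exact hb (hα i j b (not_le.1 hlt))
  omega

theorem exists_degGe (α : Matrix ι ι (LaurentPolynomial A)) : ∃ m : ℕ, DegGe m α := by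
  classical
  refine ⟨(Finset.univ : Finset (ι × ι)).sup fun x => (α x.1 x.2).coeff.support.sup Int.natAbs,
    fun i j c hc => ?_⟩
  by_contra hne
  have h1 : c.natAbs ≤ (α i j).coeff.support.sup Int.natAbs :=
    Finset.le_sup (f := Int.natAbs) (Finsupp.mem_support_iff.2 hne)
  have h2 : (α i j).coeff.support.sup Int.natAbs ≤
      (Finset.univ : Finset (ι × ι)).sup fun x => (α x.1 x.2).coeff.support.sup Int.natAbs :=
    Finset.le_sup (f := fun x : ι × ι => (α x.1 x.2).coeff.support.sup Int.natAbs)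
      (Finset.mem_univ (i, j))
  omega

/-- A lattice: the quotient is projective, and the submodule contains some `Ge K` . -/
structure Lat (P : Submodule A (ι → LaurentPolynomial A)) : Prop where
  proj : Module.Projective A ((ι → LaurentPolynomial A) ⧸ P)
  ge : ∃ K : ℤ, Ge A ι K ≤ P

/-- What GEQ says. -/
structure Geq (A : Type u) [Ring A] (ι : Type) : Prop where
  proj : ∀ m : ℤ, Module.Projective A ((ι → LaurentPolynomial A) ⧸ Ge A ι m)
  fin : ∀ a b : ℤ, Module.Finite A ((Ge A ι a).map (Ge A ι b).mkQ)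

theorem Lat.of_ge (G : Geq A ι) (a : ℤ) : Lat (Ge A ι a) := ⟨G.proj a, a, le_rfl⟩

theorem Lat.fin (G : Geq A ι) {P : Submodule A (ι → LaurentPolynomial A)} (hP : Lat P) (a : ℤ) :
    Module.Finite A ((Ge A ι a).map P.mkQ) := by
  obtain ⟨K, hK⟩ := hP.ge
  have h1 := G.fin a K
  let g : ((ι → LaurentPolynomial A) ⧸ Ge A ι K) →ₗ[A] ((ι → LaurentPolynomial A) ⧸ P) :=
    Submodule.factor hK
  let f : ((Ge A ι a).map (Ge A ι K).mkQ) →ₗ[A] ((Ge A ι a).map P.mkQ) :=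
    g.restrict (by
      rintro _ ⟨v, hv, rfl⟩
      exact ⟨v, hv, rfl⟩)
  have hf : Function.Surjective f := by
    rintro ⟨_, v, hv, rfl⟩
    exact ⟨⟨(Ge A ι K).mkQ v, v, hv, rfl⟩, rfl⟩
  exact Module.Finite.of_surjective f hf

theorem Lat.map (_G : Geq A ι) {P : Submodule A (ι → LaurentPolynomial A)} (hP : Lat P)
    {α β : Matrix ι ι (LaurentPolynomial A)} (h1 : α * β = 1) (h2 : β * α = 1) :
    Lat (P.map (rmul α)) := by
  refine ⟨?_, ?_⟩
  · have := hP.proj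
    exact Module.Projective.of_equiv
      (Submodule.Quotient.equiv P (P.map (rmul α)) (requiv α β h1 h2) rfl)
  · obtain ⟨K, hK⟩ := hP.ge
    obtain ⟨m, hm⟩ := exists_degGe β
    refine ⟨K + m, fun y hy => ?_⟩
    refine ⟨rmul β y, hK ?_, ?_⟩
    · have h3 := ge_map_le hm (K + m) ⟨y, hy, rfl⟩
      rwa [add_sub_cancel_right] at h3
    · have h4 : (rmul α).comp (rmul β) = LinearMap.id := by rw [← rmul_mul, h2, rmul_one]
      exact LinearMap.congr_fun h4 y

/-- `rel_add` for lattices. -/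
theorem Lat.rel_add (G : Geq A ι) {P Q : Submodule A (ι → LaurentPolynomial A)} (hP : Lat P)
    (hQ : Lat Q) {a : ℤ} (h1 : P ≤ Q) (h2 : Q ≤ Ge A ι a) :
    rel (Ge A ι a) P = rel (Ge A ι a) Q + rel Q P :=
  NegK.rel_add h1 h2 hP.proj hQ.proj (G.proj a) (hP.fin G a)

/-- Independence of the ambient lattice. -/
theorem index_indep (G : Geq A ι) {P : Submodule A (ι → LaurentPolynomial A)} (hP : Lat P)
    {m n : ℕ} (hm : P ≤ Ge A ι (-(m : ℤ))) (hn : P ≤ Ge A ι (-(n : ℤ))) :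
    rel (Ge A ι (-(m : ℤ))) P - rel (Ge A ι (-(m : ℤ))) (Ge A ι 0) =
      rel (Ge A ι (-(n : ℤ))) P - rel (Ge A ι (-(n : ℤ))) (Ge A ι 0) := by
  wlog hmn : m ≤ n generalizing m n
  · exact (this hn hm (le_of_not_ge hmn)).symm
  have h1 : Ge A ι (-(m : ℤ)) ≤ Ge A ι (-(n : ℤ)) := ge_mono (by omega)
  have h2 : Ge A ι 0 ≤ Ge A ι (-(m : ℤ)) := ge_mono (by omega)
  rw [hP.rel_add G (Lat.of_ge G (-(m : ℤ))) hm h1,
    (Lat.of_ge G 0).rel_add G (Lat.of_ge G (-(m : ℤ))) h2 h1]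
  abel

theorem ind_eq (G : Geq A ι) {α β : Matrix ι ι (LaurentPolynomial A)} (h1 : α * β = 1)
    (h2 : β * α = 1) {m : ℕ} (hm : (Ge A ι 0).map (rmul α) ≤ Ge A ι (-(m : ℤ))) :
    ind α = rel (Ge A ι (-(m : ℤ))) ((Ge A ι 0).map (rmul α)) -
      rel (Ge A ι (-(m : ℤ))) (Ge A ι 0) := by
  have h : ∃ m : ℕ, (Ge A ι 0).map (rmul α) ≤ Ge A ι (-m) := ⟨m, hm⟩
  unfold ind
  rw [dif_pos h]
  exact index_indep G ((Lat.of_ge G 0).map G h1 h2) h.choose_spec hm

theorem ge_map_le0 {m : ℕ} {α : Matrix ι ι (LaurentPolynomial A)} (hα : DegGe m α) :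
    (Ge A ι 0).map (rmul α) ≤ Ge A ι (-(m : ℤ)) := by
  have h := ge_map_le hα 0
  rwa [zero_sub] at h

theorem ind_mul (G : Geq A ι) {α β α' β' : Matrix ι ι (LaurentPolynomial A)} (h1 : α * α' = 1)
    (h2 : α' * α = 1) (h3 : β * β' = 1) (h4 : β' * β = 1) :
    ind (α * β) = ind α + ind β := by
  obtain ⟨l, hl⟩ := exists_degGe α
  obtain ⟨b, hb⟩ := exists_degGe β
  have h5 : (α * β) * (β' * α') = 1 := by
    rw [Matrix.mul_assoc, ← Matrix.mul_assoc β, h3, Matrix.one_mul, h1]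
  have h6 : (β' * α') * (α * β) = 1 := by
    rw [Matrix.mul_assoc, ← Matrix.mul_assoc α', h2, Matrix.one_mul, h4]
  have hL : (Ge A ι 0).map (rmul α) ≤ Ge A ι (-(l : ℤ)) := ge_map_le0 hl
  have h0 : Ge A ι 0 ≤ Ge A ι (-(l : ℤ)) := ge_mono (by omega)
  have hm : (Ge A ι (-(l : ℤ))).map (rmul β) ≤ Ge A ι (-((l + b : ℕ) : ℤ)) := by
    have h := ge_map_le hb (-(l : ℤ))
    have h' : -((l + b : ℕ) : ℤ) = -(l : ℤ) - b := by push_cast; ring
    rwa [h']
  have hmap : (Ge A ι 0).map (rmul (α * β)) = ((Ge A ι 0).map (rmul α)).map (rmul β) := by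
    rw [rmul_mul, Submodule.map_comp]
  have hab : (Ge A ι 0).map (rmul (α * β)) ≤ Ge A ι (-((l + b : ℕ) : ℤ)) := by
    rw [hmap]
    exact (Submodule.map_mono hL).trans hm
  have hbb : (Ge A ι 0).map (rmul β) ≤ Ge A ι (-((l + b : ℕ) : ℤ)) :=
    (Submodule.map_mono h0).trans hm
  have LG0 := Lat.of_ge G 0
  have LGl := Lat.of_ge G (-(l : ℤ))
  have LL := LG0.map G h1 h2
  have key : ∀ {P : Submodule A (ι → LaurentPolynomial A)}, Lat P → P ≤ Ge A ι (-(l : ℤ)) →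
      rel (Ge A ι (-((l + b : ℕ) : ℤ))) (P.map (rmul β)) =
        rel (Ge A ι (-((l + b : ℕ) : ℤ))) ((Ge A ι (-(l : ℤ))).map (rmul β)) +
          rel (Ge A ι (-(l : ℤ))) P := by
    intro P hP hPl
    rw [(hP.map G h3 h4).rel_add G (LGl.map G h3 h4) (Submodule.map_mono hPl) hm]
    congr 1
    exact rel_map (requiv β β' h3 h4) (hP.fin G _) (rel_projective hPl hP.proj LGl.proj)
  rw [ind_eq G h5 h6 hab, ind_eq G h3 h4 hbb, ind_eq G h1 h2 hL, hmap, key LL hL, key LG0 h0]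
  abel

end

theorem inda (h : GeqStatement.{u}) : IndaStatement.{u} := by
  intro A _ ι _ _
  obtain ⟨hp, hf, -⟩ := h A ι
  have G : Geq A ι := ⟨hp, hf⟩
  refine ⟨?_, ?_⟩
  · intro α m hα hm
    obtain ⟨u, rfl⟩ := hα
    exact ind_eq G (Units.mul_inv u) (Units.inv_mul u) (ge_map_le0 hm)
  · intro α β hα hβ
    obtain ⟨u, rfl⟩ := hα
    obtain ⟨v, rfl⟩ := hβ
    exact ind_mul G (Units.mul_inv u) (Units.inv_mul u) (Units.mul_inv v) (Units.inv_mul v)

end Pool.Agent.NegK.WR.H16
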